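import Pool.Agent.H85.LSP.Def2

/-!
LSQ, row FAT: if `∑ w_α A(α) α ^ n` is an integer for all `n ≥ 0` then the leading coefficient of
the irreducible polynomial `Q` is a unit (Fatou).
-/

set_option autoImplicit false

namespace Pool.LSP

open Polynomial Finset

namespace H70F

/-- An exponential sum which vanishes identically has zero coefficients. -/
theorem coeff_zero (S : Finset ℂ) (c : ℂ → ℂ) (h : ∀ n : ℕ, ∑ α ∈ S, c α * α ^ n = 0) :
    ∀ α ∈ S, c α = 0 := by
  classical
  have hB : ∀ B : ℂ[X], ∑ α ∈ S, c α * B.eval α = 0 := by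
    intro B
    have h1 : ∀ α, B.eval α = ∑ i ∈ range (B.natDegree + 1), B.coeff i * α ^ i := fun α =>
      Polynomial.eval_eq_sum_range (p := B) α
    simp_rw [h1, Finset.mul_sum]
    rw [Finset.sum_comm]
    apply Finset.sum_eq_zero
    intro i _
    calc ∑ α ∈ S, c α * (B.coeff i * α ^ i) = B.coeff i * ∑ α ∈ S, c α * α ^ i := by
          rw [Finset.mul_sum]
          apply Finset.sum_congr rfl
          intro α _
          ring
      _ = 0 := by rw [h i, mul_zero]
  intro α hα
  have h1 := hB (∏ β ∈ S.erase α, (X - C β))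
  rw [Finset.sum_eq_single_of_mem α hα] at h1
  · rw [eval_prod] at h1
    rcases mul_eq_zero.1 h1 with h2 | h2
    · exact h2
    · exfalso
      rw [Finset.prod_eq_zero_iff] at h2
      obtain ⟨β, hβ, hβ2⟩ := h2
      simp only [eval_sub, eval_X, eval_C, sub_eq_zero] at hβ2
      exact (Finset.mem_erase.1 hβ).1 hβ2.symm
  · intro β hβ hne
    rw [eval_prod, Finset.prod_eq_zero (i := β) (Finset.mem_erase.2 ⟨hne, hβ⟩)]
    · simp
    · simp

/-- The module of the integer sequences which satisfy the recurrence of `Q`. -/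
def Lm (Q : ℤ[X]) : Submodule ℤ (ℕ → ℤ) where
  carrier := {x | ∀ n, ∑ i ∈ range (Q.natDegree + 1), Q.coeff i * x (n + i) = 0}
  zero_mem' := by
    intro n
    simp
  add_mem' := by
    intro x y hx hy n
    have h1 := hx n
    have h2 := hy n
    simp only [Pi.add_apply, mul_add, Finset.sum_add_distrib]
    rw [h1, h2, add_zero]
  smul_mem' := by
    intro c x hx n
    have h := hx n
    have e : ∑ i ∈ range (Q.natDegree + 1), Q.coeff i * (c • x) (n + i)
        = c * ∑ i ∈ range (Q.natDegree + 1), Q.coeff i * x (n + i) := by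
      rw [Finset.mul_sum]
      apply Finset.sum_congr rfl
      intro i _
      simp only [Pi.smul_apply, smul_eq_mul]
      ring
    rw [e, h, mul_zero]

/-- The shift. -/
def sft (Q : ℤ[X]) : Lm Q →ₗ[ℤ] Lm Q where
  toFun x := ⟨fun n => x.1 (n + 1), by
    intro n
    have h := x.2 (n + 1)
    have e : ∀ i, n + i + 1 = n + 1 + i := fun i => by omega
    simp only [e]
    exact h⟩
  map_add' := by
    intro x y
    rfl
  map_smul' := by
    intro c x
    rfl

theorem sft_pow (Q : ℤ[X]) (k : ℕ) : ∀ (x : Lm Q) (n : ℕ), ((sft Q ^ k) x).1 n = x.1 (n + k) := by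
  induction k with
  | zero => intro x n; rfl
  | succ k ih =>
    intro x n
    rw [pow_succ, Module.End.mul_apply, ih]
    rfl

theorem aev (Q R : ℤ[X]) (x : Lm Q) (n : ℕ) :
    ((aeval (sft Q) R) x).1 n = ∑ i ∈ range (R.natDegree + 1), R.coeff i * x.1 (n + i) := by
  rw [aeval_eq_sum_range, LinearMap.sum_apply]
  have e : (((∑ i ∈ range (R.natDegree + 1), (R.coeff i • sft Q ^ i) x : Lm Q)) : ℕ → ℤ)
      = ∑ i ∈ range (R.natDegree + 1), (((R.coeff i • sft Q ^ i) x : Lm Q) : ℕ → ℤ) :=
    Submodule.coe_sum _ _ _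
  change (((∑ i ∈ range (R.natDegree + 1), (R.coeff i • sft Q ^ i) x : Lm Q)) : ℕ → ℤ) n = _
  rw [e, Finset.sum_apply]
  apply Finset.sum_congr rfl
  intro i _
  rw [LinearMap.smul_apply]
  change (R.coeff i • ((sft Q ^ i) x)).1 n = _
  have h := sft_pow Q i x n
  rw [← h]
  rfl

theorem fin (Q : ℤ[X]) (hQ : Q ≠ 0) : Module.Finite ℤ (Lm Q) := by
  have hl : Q.coeff Q.natDegree ≠ 0 := by
    rw [coeff_natDegree]
    exact leadingCoeff_ne_zero.2 hQ
  let φ : Lm Q →ₗ[ℤ] (Fin Q.natDegree → ℤ) :=
    { toFun := fun x i => x.1 i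
      map_add' := by
        intro x y
        rfl
      map_smul' := by
        intro c x
        rfl }
  apply Module.Finite.of_injective φ
  rw [← LinearMap.ker_eq_bot, LinearMap.ker_eq_bot']
  intro x hx
  have h0 : ∀ i, i < Q.natDegree → x.1 i = 0 := by
    intro i hi
    have := congrFun hx ⟨i, hi⟩
    exact this
  have h1 : ∀ n, x.1 n = 0 := by
    intro n
    induction n using Nat.strong_induction_on with
    | _ n ih =>
      rcases lt_or_ge n Q.natDegree with h | h
      · exact h0 n h
      · have h2 := x.2 (n - Q.natDegree)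
        rw [Finset.sum_range_succ] at h2
        have h3 : ∑ i ∈ range Q.natDegree, Q.coeff i * x.1 (n - Q.natDegree + i) = 0 := by
          apply Finset.sum_eq_zero
          intro i hi
          rw [Finset.mem_range] at hi
          rw [ih (n - Q.natDegree + i) (by omega), mul_zero]
        rw [h3, zero_add, Nat.sub_add_cancel h] at h2
        exact (mul_eq_zero.1 h2).resolve_left hl
  apply Subtype.ext
  funext n
  exact h1 n

end H70F

open H70F in
/-- FAT -/
theorem t_fat (hDVD : DVDStmt) : FATStmt := by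
  intro Q w hirr hdeg hnd hw A hA hAd hint
  classical
  have hQ0 : Q ≠ 0 := hirr.ne_zero
  choose x hx using hint
  have hus : ∀ n : ℕ, ((x n : ℤ) : ℂ) = ∑ α ∈ (Rt Q).toFinset, w α * aeval α A * α ^ n := by
    intro n
    rw [← hx n]
    unfold us
    simp
  have hroot : ∀ α ∈ (Rt Q).toFinset, aeval α Q = 0 := by
    intro α hα
    rw [Multiset.mem_toFinset] at hα
    have h1 := (mem_roots'.1 hα).2
    rw [IsRoot.def, eval_map] at h1
    rw [aeval_def]
    exact h1
  have hev : ∀ (R : ℤ[X]) (α : ℂ),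
      aeval α R = ∑ i ∈ range (R.natDegree + 1), ((R.coeff i : ℤ) : ℂ) * α ^ i := by
    intro R α
    rw [aeval_eq_sum_range]
    apply Finset.sum_congr rfl
    intro i _
    rw [zsmul_eq_mul]
  have hconv : ∀ (R : ℤ[X]) (n : ℕ),
      ((∑ i ∈ range (R.natDegree + 1), R.coeff i * x (n + i) : ℤ) : ℂ)
        = ∑ α ∈ (Rt Q).toFinset, w α * aeval α A * aeval α R * α ^ n := by
    intro R n
    push_cast
    simp_rw [hus, hev R, Finset.mul_sum, Finset.sum_mul]
    rw [Finset.sum_comm]
    apply Finset.sum_congr rfl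
    intro α _
    apply Finset.sum_congr rfl
    intro i _
    rw [pow_add]
    ring
  have hxL : x ∈ Lm Q := by
    intro n
    have h := hconv Q n
    have h2 : ∑ α ∈ (Rt Q).toFinset, w α * aeval α A * aeval α Q * α ^ n = 0 := by
      apply Finset.sum_eq_zero
      intro α hα
      rw [hroot α hα]
      ring
    rw [h2] at h
    exact_mod_cast h
  have := H70F.fin Q hQ0
  obtain ⟨R, hRm, hR⟩ := LinearMap.exists_monic_and_aeval_eq_zero ℤ (sft Q)
  have hR2 : ∀ n : ℕ, ∑ i ∈ range (R.natDegree + 1), R.coeff i * x (n + i) = 0 := by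
    intro n
    have h := aev Q R ⟨x, hxL⟩ n
    rw [hR] at h
    exact h.symm
  have hz := coeff_zero (Rt Q).toFinset (fun α => w α * aeval α A * aeval α R) (by
    intro n
    have h := hconv R n
    rw [hR2 n] at h
    rw [← h]
    simp)
  -- a root
  have hcard : Multiset.card (Rt Q) = Q.natDegree := by
    unfold Rt
    rw [← (IsAlgClosed.splits (Q.map (Int.castRingHom ℂ))).natDegree_eq_card_roots]
    exact natDegree_map_eq_of_injective Int.cast_injective Q
  have hne : ∃ α, α ∈ Rt Q := by
    apply Multiset.card_pos_iff_exists_mem.1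
    omega
  obtain ⟨α, hα⟩ := hne
  have hαS : α ∈ (Rt Q).toFinset := Multiset.mem_toFinset.2 hα
  have h1 := hz α hαS
  have hA2 : aeval α A ≠ 0 := by
    intro h
    have h3 := hDVD Q hirr hdeg α hα A h
    exact absurd (natDegree_le_of_dvd h3 hA) (by omega)
  have hR3 : aeval α R = 0 := by
    rcases mul_eq_zero.1 h1 with h2 | h2
    · rcases mul_eq_zero.1 h2 with h3 | h3
      · exact absurd h3 (hw.ne α hα)
      · exact absurd h3 hA2
    · exact h2
  obtain ⟨B, hB⟩ := hDVD Q hirr hdeg α hα R hR3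
  have h4 : Q.leadingCoeff * B.leadingCoeff = 1 := by
    rw [← leadingCoeff_mul, ← hB]
    exact hRm
  exact IsUnit.of_mul_eq_one _ h4

end Pool.LSP
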