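import Pool.Agent.H85.LSP.Def2

/-!
LSQ, row SUB: the supply of the second kind, for a monic irreducible polynomial with a root of
modulus greater than one and a root of modulus one.
-/

set_option autoImplicit false

namespace Pool.LSP

open Polynomial Finset
open scoped ComplexConjugate

namespace H70S

theorem aev_sum (R : ℤ[X]) (α : ℂ) :
    aeval α R = ∑ i ∈ range (R.natDegree + 1), ((R.coeff i : ℤ) : ℂ) * α ^ i := by
  rw [aeval_eq_sum_range]
  apply Finset.sum_congr rfl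
  intro i _
  rw [zsmul_eq_mul]

theorem aev_conj (R : ℤ[X]) (α : ℂ) : aeval (conj α) R = conj (aeval α R) := by
  rw [aev_sum, aev_sum, map_sum]
  apply Finset.sum_congr rfl
  intro i _
  rw [map_mul, map_pow]
  congr 1
  exact (map_intCast (starRingEnd ℂ) (R.coeff i)).symm

theorem mem_conj (Q : ℤ[X]) (hQ : Q ≠ 0) {α : ℂ} (h : α ∈ Rt Q) : conj α ∈ Rt Q := by
  have h1 := (mem_roots'.1 h).2
  rw [IsRoot.def, eval_map] at h1
  have h2 : aeval α Q = 0 := by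
    rw [aeval_def]
    exact h1
  have h3 : aeval (conj α) Q = 0 := by
    rw [aev_conj, h2, map_zero]
  unfold Rt
  rw [mem_roots']
  refine ⟨?_, ?_⟩
  · intro h0
    exact hQ (map_injective (Int.castRingHom ℂ) Int.cast_injective (by rw [h0, Polynomial.map_zero]))
  · rw [IsRoot.def, eval_map]
    rw [aeval_def] at h3
    exact h3

open Classical in
/-- The roots of modulus at most one. -/
noncomputable def Inn (Q : ℤ[X]) : Finset ℂ := (Rt Q).toFinset.filter (fun α => ¬ 1 < ‖α‖)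

theorem us_split (Q : ℤ[X]) (w : ℂ → ℂ) (B : ℤ[X]) (n : ℤ) :
    us (Rt Q).toFinset w B n = us (Out Q) w B n + us (Inn Q) w B n := by
  classical
  unfold us Out Inn
  exact (Finset.sum_filter_add_sum_filter_not (Rt Q).toFinset (fun α => 1 < ‖α‖) _).symm

theorem us_real (Q : ℤ[X]) (hQ : Q ≠ 0) (w : ℂ → ℂ) (hw : Wt Q w) (B : ℤ[X]) (n : ℤ) :
    conj (us (Inn Q) w B n) = us (Inn Q) w B n := by
  classical
  unfold us
  rw [map_sum]
  have hI : ∀ α ∈ Inn Q, conj α ∈ Inn Q := by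
    intro α hα
    unfold Inn at *
    rw [Finset.mem_filter, Multiset.mem_toFinset] at *
    refine ⟨mem_conj Q hQ hα.1, ?_⟩
    rw [Complex.norm_conj]
    exact hα.2
  apply Finset.sum_nbij' (fun α => conj α) (fun α => conj α) hI hI
  · intro α _
    exact Complex.conj_conj α
  · intro α _
    exact Complex.conj_conj α
  · intro α _
    rw [map_mul, map_mul, hw.cj α, aev_conj, map_zpow₀]

theorem us_int (Q : ℤ[X]) (hm : Q.Monic) (w : ℂ → ℂ) (hw : Wt Q w) (B : ℤ[X]) (n : ℕ) :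
    ∃ x : ℤ, us (Rt Q).toFinset w B n = x := by
  choose y hy using hw.int
  have hy2 : ∀ m : ℕ, ∑ α ∈ (Rt Q).toFinset, w α * α ^ m = (y m : ℂ) := by
    intro m
    have h := hy m
    rw [hm.leadingCoeff, Int.cast_one, one_pow, one_mul] at h
    exact h
  refine ⟨∑ j ∈ range (B.natDegree + 1), B.coeff j * y (n + j), ?_⟩
  unfold us
  push_cast
  simp_rw [← hy2, aev_sum B, Finset.mul_sum, Finset.sum_mul]
  rw [Finset.sum_comm]
  apply Finset.sum_congr rfl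
  intro j _
  apply Finset.sum_congr rfl
  intro α _
  rw [zpow_natCast, pow_add]
  ring

/-- The inner sum does not tend to zero. -/
theorem us_big (Q : ℤ[X]) (w : ℂ → ℂ) (B : ℤ[X]) (γ : ℂ) (hγ : γ ∈ Inn Q) (h1 : ‖γ‖ = 1)
    (hw : w γ ≠ 0) (hB : aeval γ B ≠ 0) :
    ∃ c : ℝ, 0 < c ∧ ∀ N : ℕ, ∃ j : ℕ, c ≤ ‖us (Inn Q) w B ((N + j : ℕ) : ℤ)‖ := by
  classical
  obtain ⟨T, hT⟩ : ∃ T : ℂ[X], T = ∏ β ∈ (Inn Q).erase γ, (X - C β) := ⟨_, rfl⟩
  have hT0 : T.eval γ ≠ 0 := by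
    rw [hT, eval_prod, Finset.prod_ne_zero_iff]
    intro β hβ h
    simp only [eval_sub, eval_X, eval_C, sub_eq_zero] at h
    exact (Finset.mem_erase.1 hβ).1 h.symm
  have hTz : ∀ β ∈ Inn Q, β ≠ γ → T.eval β = 0 := by
    intro β hβ hne
    rw [hT, eval_prod, Finset.prod_eq_zero (i := β) (Finset.mem_erase.2 ⟨hne, hβ⟩)]
    simp
  obtain ⟨M, hM⟩ : ∃ M : ℝ, M = ‖w γ * aeval γ B * T.eval γ‖ := ⟨_, rfl⟩
  have hM0 : 0 < M := by
    rw [hM]
    exact norm_pos_iff.2 (mul_ne_zero (mul_ne_zero hw hB) hT0)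
  obtain ⟨K, hK⟩ : ∃ K : ℝ, K = ∑ j ∈ range (T.natDegree + 1), ‖T.coeff j‖ := ⟨_, rfl⟩
  have hK0 : 0 ≤ K := by
    rw [hK]
    exact Finset.sum_nonneg (fun _ _ => norm_nonneg _)
  refine ⟨M / (K + 1), by positivity, ?_⟩
  intro N
  by_contra hcon
  push Not at hcon
  have hsum : ∑ j ∈ range (T.natDegree + 1), T.coeff j * us (Inn Q) w B ((N + j : ℕ) : ℤ)
      = w γ * aeval γ B * T.eval γ * γ ^ N := by
    have e1 : ∑ j ∈ range (T.natDegree + 1), T.coeff j * us (Inn Q) w B ((N + j : ℕ) : ℤ)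
        = ∑ β ∈ Inn Q, w β * aeval β B * T.eval β * β ^ N := by
      unfold us
      have e2 : ∀ β : ℂ, T.eval β = ∑ i ∈ range (T.natDegree + 1), T.coeff i * β ^ i := fun β =>
        Polynomial.eval_eq_sum_range (p := T) β
      simp_rw [e2, Finset.mul_sum, Finset.sum_mul]
      rw [Finset.sum_comm]
      apply Finset.sum_congr rfl
      intro β _
      apply Finset.sum_congr rfl
      intro j _
      rw [zpow_natCast, pow_add]
      ring
    rw [e1]
    apply Finset.sum_eq_single_of_mem γ hγ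
    intro β hβ hne
    rw [hTz β hβ hne]
    ring
  have h2 : M ≤ K * (M / (K + 1)) := by
    calc M = ‖∑ j ∈ range (T.natDegree + 1), T.coeff j * us (Inn Q) w B ((N + j : ℕ) : ℤ)‖ := by
          rw [hsum, norm_mul, norm_pow, h1, one_pow, mul_one, hM]
      _ ≤ ∑ j ∈ range (T.natDegree + 1), ‖T.coeff j * us (Inn Q) w B ((N + j : ℕ) : ℤ)‖ :=
          norm_sum_le _ _
      _ ≤ ∑ j ∈ range (T.natDegree + 1), ‖T.coeff j‖ * (M / (K + 1)) := by
          apply Finset.sum_le_sum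
          intro j _
          rw [norm_mul]
          exact mul_le_mul_of_nonneg_left (hcon j).le (norm_nonneg _)
      _ = K * (M / (K + 1)) := by
          rw [hK, Finset.sum_mul]
  have h3 : K * (M / (K + 1)) < M := by
    rw [mul_div_assoc', div_lt_iff₀ (by linarith)]
    nlinarith
  linarith

/-- Extraction of a time after which the sequence is nearly maximal. -/
theorem extract (ρ : ℕ → ℝ) (D c t : ℝ) (L : ℕ) (hD : ∀ n, |ρ n| ≤ D) (hc : 0 < c)
    (hbig : ∀ N : ℕ, ∃ j : ℕ, c ≤ |ρ (N + j)|) (ht : 1 < t) :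
    ∃ (b : ℝ) (n₁ n₂ : ℕ), 0 < b ∧ b ≤ D ∧ n₁ + L ≤ n₂ ∧ (∀ n, n₁ ≤ n → |ρ n| ≤ b) ∧
      b ≤ t * |ρ n₂| := by
  obtain ⟨b, hb⟩ : ∃ b : ℕ → ℝ, b = fun N => ⨆ n : ℕ, |ρ (N + n)| := ⟨_, rfl⟩
  have hbd : ∀ N, BddAbove (Set.range fun n : ℕ => |ρ (N + n)|) := by
    intro N
    refine ⟨D, ?_⟩
    rintro _ ⟨n, rfl⟩
    exact hD _
  have hle : ∀ N n, |ρ (N + n)| ≤ b N := by
    intro N n
    rw [hb]
    exact le_ciSup (hbd N) n
  have hbD : ∀ N, b N ≤ D := by
    intro N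
    rw [hb]
    exact ciSup_le (fun n => hD _)
  have hcb : ∀ N, c ≤ b N := by
    intro N
    obtain ⟨j, hj⟩ := hbig N
    exact hj.trans (hle N j)
  obtain ⟨s, hs⟩ : ∃ s : ℝ, s = ⨅ N, b N := ⟨_, rfl⟩
  have hbb : BddBelow (Set.range b) := by
    refine ⟨c, ?_⟩
    rintro _ ⟨n, rfl⟩
    exact hcb n
  have hsc : c ≤ s := by
    rw [hs]
    exact le_ciInf hcb
  have hs0 : 0 < s := lt_of_lt_of_le hc hsc
  have hsb : ∀ N, s ≤ b N := by
    intro N
    rw [hs]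
    exact ciInf_le hbb N
  have hst : 1 < Real.sqrt t := by
    rw [Real.lt_sqrt (by norm_num)]
    linarith
  have htt : Real.sqrt t * Real.sqrt t = t := Real.mul_self_sqrt (by linarith)
  obtain ⟨n₁, hn₁⟩ : ∃ n₁, b n₁ < Real.sqrt t * s := by
    apply exists_lt_of_ciInf_lt
    rw [← hs]
    nlinarith
  obtain ⟨j, hj⟩ : ∃ j : ℕ, b (n₁ + L) / Real.sqrt t < |ρ (n₁ + L + j)| := by
    apply exists_lt_of_lt_ciSup
    have e : (⨆ i : ℕ, |ρ (n₁ + L + i)|) = b (n₁ + L) := by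
      rw [hb]
    rw [e, div_lt_iff₀ (by linarith)]
    have := hcb (n₁ + L)
    nlinarith
  refine ⟨b n₁, n₁, n₁ + L + j, lt_of_lt_of_le hc (hcb n₁), hbD n₁, by omega, ?_, ?_⟩
  · intro n hn
    have := hle n₁ (n - n₁)
    rwa [Nat.add_sub_cancel' hn] at this
  · have h1 : b n₁ ≤ Real.sqrt t * b (n₁ + L) := by
      have := hsb (n₁ + L)
      nlinarith
    rw [div_lt_iff₀ (by linarith)] at hj
    have h2 : Real.sqrt t * b (n₁ + L) ≤ Real.sqrt t * (|ρ (n₁ + L + j)| * Real.sqrt t) :=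
      mul_le_mul_of_nonneg_left hj.le (by linarith)
    calc b n₁ ≤ Real.sqrt t * b (n₁ + L) := h1
      _ ≤ Real.sqrt t * (|ρ (n₁ + L + j)| * Real.sqrt t) := h2
      _ = Real.sqrt t * Real.sqrt t * |ρ (n₁ + L + j)| := by ring
      _ = t * |ρ (n₁ + L + j)| := by rw [htt]

end H70S

open H70S in
/-- SUB -/
theorem t_sub (hWTS : WTSStmt) (hPHL : PHLStmt) (hDVD : DVDStmt) : SUBStmt := by
  intro Q hirr hmon hnd hout hex t ht
  classical
  have hQ0 : Q ≠ 0 := hirr.ne_zero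
  obtain ⟨γ, hγR, hγ1⟩ := hex
  have hdeg : 1 ≤ Q.natDegree := by
    by_contra h
    have h0 : Q.natDegree = 0 := by omega
    have h1 : (Q.map (Int.castRingHom ℂ)).natDegree = 0 := by
      rw [natDegree_map_eq_of_injective Int.cast_injective, h0]
    have h2 : Multiset.card (Rt Q) ≤ 0 := by
      unfold Rt
      rw [← h1]
      exact card_roots' _
    have h3 := Multiset.card_pos_iff_exists_mem.2 ⟨γ, hγR⟩
    omega
  obtain ⟨w, hw⟩ := hWTS Q hnd hdeg
  have hγI : γ ∈ Inn Q := by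
    unfold Inn
    rw [Finset.mem_filter, Multiset.mem_toFinset]
    exact ⟨hγR, by rw [hγ1]; exact lt_irrefl _⟩
  intro δ L hδ
  obtain ⟨W, hW⟩ : ∃ W : ℝ, W = ∑ β ∈ Inn Q, ‖w β‖ := ⟨_, rfl⟩
  have hW0 : 0 ≤ W := by
    rw [hW]
    exact Finset.sum_nonneg (fun _ _ => norm_nonneg _)
  obtain ⟨B, hB0, hBd, hBs⟩ := hPHL Q hnd hout (δ / 2 / (W + 1)) 1 (by positivity) one_ne_zero
  have hBs2 : ∀ β ∈ Inn Q, ‖aeval β B‖ ≤ δ / 2 / (W + 1) := by
    intro β hβ
    unfold Inn at hβ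
    rw [Finset.mem_filter, Multiset.mem_toFinset] at hβ
    have h := hBs β hβ.1 (not_lt.1 hβ.2)
    rwa [map_one, one_mul] at h
  have hβ1 : ∀ β ∈ Inn Q, ‖β‖ ≤ 1 := by
    intro β hβ
    unfold Inn at hβ
    rw [Finset.mem_filter] at hβ
    exact not_lt.1 hβ.2
  have hus : ∀ n : ℕ, ‖us (Inn Q) w B (n : ℤ)‖ ≤ δ / 2 := by
    intro n
    unfold us
    calc ‖∑ β ∈ Inn Q, w β * aeval β B * β ^ (n : ℤ)‖
        ≤ ∑ β ∈ Inn Q, ‖w β * aeval β B * β ^ (n : ℤ)‖ := norm_sum_le _ _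
      _ ≤ ∑ β ∈ Inn Q, ‖w β‖ * (δ / 2 / (W + 1)) := by
          apply Finset.sum_le_sum
          intro β hβ
          rw [zpow_natCast, norm_mul, norm_mul, norm_pow]
          have h1 : ‖β‖ ^ n ≤ 1 := pow_le_one₀ (norm_nonneg _) (hβ1 β hβ)
          calc ‖w β‖ * ‖aeval β B‖ * ‖β‖ ^ n ≤ ‖w β‖ * ‖aeval β B‖ * 1 :=
                mul_le_mul_of_nonneg_left h1 (by positivity)
            _ = ‖w β‖ * ‖aeval β B‖ := mul_one _
            _ ≤ ‖w β‖ * (δ / 2 / (W + 1)) :=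
                mul_le_mul_of_nonneg_left (hBs2 β hβ) (norm_nonneg _)
      _ = W * (δ / 2 / (W + 1)) := by
          rw [hW, Finset.sum_mul]
      _ ≤ δ / 2 := by
          rw [mul_div_assoc', div_le_iff₀ (by linarith)]
          nlinarith
  obtain ⟨ρ, hρ⟩ : ∃ ρ : ℕ → ℝ, ρ = fun n : ℕ => (us (Inn Q) w B (n : ℤ)).re := ⟨_, rfl⟩
  have hρn : ∀ n : ℕ, |ρ n| = ‖us (Inn Q) w B (n : ℤ)‖ := by
    intro n
    have h := us_real Q hQ0 w hw B n
    have h2 : ((ρ n : ℝ) : ℂ) = us (Inn Q) w B (n : ℤ) := by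
      rw [hρ]
      exact Complex.conj_eq_iff_re.1 h
    rw [← h2, Complex.norm_real, Real.norm_eq_abs]
  have hBγ : aeval γ B ≠ 0 := by
    intro h
    have h3 := hDVD Q hirr hdeg γ hγR B h
    exact absurd (natDegree_le_of_dvd h3 hB0) (by omega)
  obtain ⟨c, hc0, hc⟩ := us_big Q w B γ hγI hγ1 (hw.ne γ hγR) hBγ
  obtain ⟨b, n₁, n₂, hb0, hbD, hn, hbs, hbt⟩ := extract ρ (δ / 2) c t L
    (fun n => by rw [hρn]; exact hus n) hc0
    (fun N => by
      obtain ⟨j, hj⟩ := hc N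
      exact ⟨j, by rw [hρn]; exact hj⟩) ht
  obtain ⟨k, hk⟩ : ∃ k : ℕ, k = ⌊δ / b⌋₊ := ⟨_, rfl⟩
  have hk1 : (k : ℝ) * b ≤ δ := by
    have h := Nat.floor_le (show 0 ≤ δ / b by positivity)
    rw [← hk, le_div_iff₀ hb0] at h
    exact h
  have hk2 : δ < (k + 1 : ℝ) * b := by
    have h := Nat.lt_floor_add_one (δ / b)
    rw [← hk, div_lt_iff₀ hb0] at h
    exact h
  refine ⟨fun n => k * (us (Out Q) w B (n + n₂)).re, ?_, fun n => k * (us (Inn Q) w B (n + n₂)).re,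
    k * b, by nlinarith, hk1, ?_, ?_⟩
  · have e : (fun n : ℤ => (k : ℝ) * (us (Out Q) w B (n + n₂)).re)
        = ∑ α ∈ Out Q, fun n : ℤ => ((k * (w α * aeval α B * α ^ (n₂ : ℤ))) * α ^ n).re := by
      funext n
      rw [Finset.sum_apply]
      unfold us
      rw [Complex.re_sum, Finset.mul_sum]
      apply Finset.sum_congr rfl
      intro α hα
      have hα0 : α ≠ 0 := by
        unfold Out at hα
        rw [Finset.mem_filter] at hα
        intro h
        rw [h, norm_zero] at hα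
        linarith [hα.2]
      have e2 : (k : ℂ) * (w α * aeval α B * α ^ (n₂ : ℤ)) * α ^ n
          = ((k : ℝ) : ℂ) * (w α * aeval α B * α ^ (n + n₂)) := by
        rw [zpow_add₀ hα0]
        push_cast
        ring
      rw [e2, Complex.re_ofReal_mul]
    rw [e]
    apply Submodule.sum_mem
    intro α hα
    exact Submodule.subset_span ⟨α, hα, _, rfl⟩
  · intro n hnL
    obtain ⟨m, hm⟩ : ∃ m : ℕ, (m : ℤ) = n + n₂ := ⟨(n + n₂).toNat, by
      rw [Int.toNat_of_nonneg]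
      omega⟩
    have hm1 : n₁ ≤ m := by omega
    refine ⟨?_, ?_⟩
    · change |(k : ℝ) * (us (Inn Q) w B (n + n₂)).re| ≤ k * b
      rw [← hm, abs_mul, Nat.abs_cast]
      apply mul_le_mul_of_nonneg_left _ (Nat.cast_nonneg k)
      have h := hbs m hm1
      rw [hρ] at h
      exact h
    · obtain ⟨x, hx⟩ := us_int Q hmon w hw B m
      refine ⟨k * x, ?_⟩
      have h1 := us_split Q w B m
      rw [hx] at h1
      have h2 : (x : ℝ) = (us (Out Q) w B m).re + (us (Inn Q) w B m).re := by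
        rw [← Complex.add_re, ← h1, Complex.intCast_re]
      change (k : ℝ) * (us (Out Q) w B (n + n₂)).re
        = ((k * x : ℤ) : ℝ) - (k : ℝ) * (us (Inn Q) w B (n + n₂)).re
      rw [← hm]
      push_cast
      rw [h2]
      ring
  · have e : ((0 : ℤ) + (n₂ : ℤ)) = (n₂ : ℤ) := zero_add _
    change (k : ℝ) * b ≤ t * |(k : ℝ) * (us (Inn Q) w B (0 + (n₂ : ℤ))).re|
    rw [e, abs_mul, Nat.abs_cast]
    have h : b ≤ t * |(us (Inn Q) w B (n₂ : ℤ)).re| := by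
      have h := hbt
      rw [hρ] at h
      exact h
    calc (k : ℝ) * b ≤ k * (t * |(us (Inn Q) w B (n₂ : ℤ)).re|) :=
          mul_le_mul_of_nonneg_left h (Nat.cast_nonneg k)
      _ = t * (k * |(us (Inn Q) w B (n₂ : ℤ)).re|) := by ring

end Pool.LSP
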